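import Pool.Agent.R778.SP.Mat

/-!
# Level property of the second symbolic power of a matroid ideal (MP_d6b0b9_al, Q1)
-/

set_option autoImplicit false

namespace Pool.Agent.Results.MP_d6b0b9_al.SecondSymbolicPower

open Pool.Agent.R778.SP

/-- **Q1 is true.** If all circuits of a matroid `M` on `[n]` have the same size, then the quotient
of `k[x_1, …, x_n]` by the second symbolic power of the Stanley–Reisner ideal of the independence
complex of `M` is a level algebra. -/
theorem result (k : Type*) [Field k] (n : ℕ) (M : Matroid (Fin n)) (hE : M.E = Set.univ)
    (hC : ∀ C C' : Set (Fin n), M.IsCircuit C → M.IsCircuit C' → C.ncard = C'.ncard) :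
    IsLevel (symbPow (srIdeal k M) 2) :=
  level_of_equal_circuits M hE hC

end Pool.Agent.Results.MP_d6b0b9_al.SecondSymbolicPower
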